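import Pool.Agent.Y677.KU.ApAll

set_option autoImplicit false

/-!
# Numbers `k ^ 2 + 3 k + 1` with few prime factors in all residue classes, uniformly in the modulus

Let `R q a s` be the set of the `k ≡ a (mod q)` for which all prime factors of `k ^ 2 + 3 k + 1` are larger
than `k ^ (1 / s)`, and `P q a r s` the set of the `k` in `R q a s` for which `k ^ 2 + 3 k + 1` has at most
`r` prime factors. For instance `r = 3`, `s = 5`, `θ > 4 / 5`, all moduli `q ≤ x ^ (1 / 5 - ε)`. For all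
classes `a` with `k ^ 2 + 3 k + 1` prime to `q` at `k = a` and all short intervals the lower bound of the
expected order (with the sieve product over the primes that do not divide `q`), narrow
progressions, and the same for every dense set in the class.
-/

namespace Pool.Agent.Results.MP_d57abb_nt.NarrowProgressions

open Finset Filter
open Pool.Agent.TH977.PW (N)
open Pool.Agent.Y677.RSZ (InProg Outside)

/-- The `k ≡ a (mod q)` for which all prime factors of `k ^ 2 + 3 k + 1` are larger than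
`k ^ (1 / s)`. -/
def R (q a s : ℕ) : Set ℕ :=
  {k | k ≡ a [MOD q] ∧
    ∀ p : ℕ, p.Prime → p ∣ k ^ 2 + 3 * k + 1 → (k : ℝ) ^ (1 / (s : ℝ)) < (p : ℝ)}

/-- The `k` of `R q a s` for which `k ^ 2 + 3 k + 1` has at most `r` prime factors. -/
def P (q a r s : ℕ) : Set ℕ :=
  {k | k ∈ R q a s ∧ (k ^ 2 + 3 * k + 1).primeFactorsList.length ≤ r}

open Classical in
/-- The sieve product: over the primes `p ≤ x` that do not divide `q`, one minus the number of
the residue classes `c` modulo `p` with `k ^ 2 + 3 k + 1` divisible by `p` at `k = c`, divided by `p`. -/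
noncomputable def V (q x : ℕ) : ℝ := ∏ p ∈ (Icc 1 x).filter (fun p => p.Prime ∧ ¬ p ∣ q),
  (1 - (((range p).filter (fun c : ℕ => p ∣ c ^ 2 + 3 * c + 1)).card : ℝ) / p)

/-- **Numbers `k ^ 2 + 3 k + 1` with few prime factors in all residue classes.** -/
theorem result (r s : ℕ) (hr : 1 ≤ r) (hs : 2 ≤ s) :
    (∀ᶠ k : ℕ in atTop, ∀ q a : ℕ, k ≡ a [MOD q] → (k ^ 2 + 3 * k + 1).Prime → k ∈ P q a r s) ∧
    ((∃ v : ℝ, 0 < v ∧ ∀ q x : ℕ, 3 ≤ x → v / Real.log x ≤ V q x) ∧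
      ∀ k : ℕ, ∃ C : ℝ, 0 < C ∧ ∀ q x : ℕ, 1 ≤ q → q.primeFactors.card ≤ k → 3 ≤ x →
        V q x ≤ C / Real.log x) ∧
    (∀ θ : ℝ, 0 < θ → θ ≤ 1 → 8 < θ * (3 * r + 1) → 2 < θ * r - (r - 1) / s → 2 < θ * s →
      (∃ κ : ℝ, 0 < κ ∧ ∀ᶠ x : ℕ in atTop, ∀ q a y : ℕ, 1 ≤ q → Nat.Coprime (a ^ 2 + 3 * a + 1) q →
        (q : ℝ) * (x : ℝ) ^ θ ≤ y → y ≤ x →
        κ * (y / q) * V q x ≤ N (P q a r s) x (x + y)) ∧
      ∀ l : ℕ, ∃ B : ℕ, ∀ᶠ x : ℕ in atTop, ∀ q a y : ℕ, 1 ≤ q → Nat.Coprime (a ^ 2 + 3 * a + 1) q →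
        (q : ℝ) * (x : ℝ) ^ θ ≤ y → y ≤ x → ∃ u d : ℕ, 1 ≤ d ∧ (d : ℝ) ≤ q * Real.log x ^ B ∧
          ∀ i < l, u + i * d ∈ P q a r s ∧ x < u + i * d ∧ u + i * d ≤ x + y) ∧
    ∀ θ : ℝ, 0 < θ → ∀ l : ℕ, 2 ≤ l → ∀ ε : ℝ, 0 < ε → ∃ B : ℕ, ∀ᶠ x : ℕ in atTop, ∀ q a y : ℕ,
      1 ≤ q → Nat.Coprime (a ^ 2 + 3 * a + 1) q → (q : ℝ) * (x : ℝ) ^ θ ≤ y → y ≤ x →
      ∀ T : Set ℕ, T ⊆ R q a s →
        (N (Outside T l (q * Real.log x ^ B) x (x + y)) x (x + y) : ℝ) ≤ ε * (y / q) * V q x := by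
  have hev : ∀ m : ℕ, (Pool.Agent.TH464.PW.quad 1 3 1).eval (m : ℤ) = ((m ^ 2 + 3 * m + 1 : ℕ) : ℤ) := fun m => by
    rw [Pool.Agent.TH464.PW.quad_eval]
    push_cast
    ring
  have hsys := Pool.Agent.Y677.KU.quad_sys 1 3 1 one_pos
    (fun p hp h => by
      have : p ∣ 1 := by exact_mod_cast h.1
      exact hp.one_lt.ne' (Nat.dvd_one.1 this))
    (by
      rintro ⟨t, ht⟩
      have h1 : t * t = 5 := by linarith
      have h2 : -4 < t := by nlinarith
      have h3 : t < 4 := by nlinarith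
      interval_cases t <;> omega)
    (fun h => absurd h.2 (by decide))
  have hdeg : (Pool.Agent.TH464.PW.quad 1 3 1).natDegree = 2 := by
    exact Pool.Agent.TH464.PW.quad_deg 1 3 1 one_ne_zero
  have hV : ∀ q x : ℕ, V q x = Pool.Agent.Y677.KU.Vf (Pool.Agent.TH464.PW.quad 1 3 1) q x := by
    intro q x
    rw [Pool.Agent.Y677.KU.Vf_eq (Pool.Agent.TH464.PW.quad 1 3 1) q x (fun p c : ℕ => p ∣ c ^ 2 + 3 * c + 1) (fun p c => by
      rw [hev, Int.natCast_dvd_natCast])]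
    unfold V
    congr!
  have h0 := Pool.Agent.Y677.KU.cls_all (Pool.Agent.TH464.PW.quad 1 3 1) hsys 2 hdeg r s hs (fun q a => R q a s)
    (fun q a => P q a r s) (V ) (fun q a => Nat.Coprime (a ^ 2 + 3 * a + 1) q)
    (fun q a => by
      ext n
      constructor
      · rintro ⟨h1, h2⟩
        refine ⟨h1, fun p hp hd => h2 p hp ?_⟩
        rw [hev] at hd
        exact_mod_cast hd
      · rintro ⟨h1, h2⟩
        refine ⟨h1, fun p hp hd => h2 p hp ?_⟩
        rw [hev]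
        exact_mod_cast hd)
    (fun q a => by
      ext n
      constructor
      · rintro ⟨⟨h1, h2⟩, h3⟩
        refine ⟨⟨h1, fun p hp hd => h2 p hp ?_⟩, ?_⟩
        · rw [hev] at hd
          exact_mod_cast hd
        · rw [hev, Int.natAbs_natCast]
          exact h3
      · rintro ⟨⟨h1, h2⟩, h3⟩
        refine ⟨⟨h1, fun p hp hd => h2 p hp ?_⟩, ?_⟩
        · rw [hev]
          exact_mod_cast hd
        · rw [hev, Int.natAbs_natCast] at h3
          exact h3)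
    hV
    (fun q a h => Pool.Agent.Y677.KU.cop_of _ a q _ (hev a) (by exact Nat.isCoprime_iff_coprime.2 h))
  obtain ⟨h1, h2, h3⟩ := h0
  refine ⟨?_, h1, fun θ hθ hθ1 g1 g2 g3 => h2 θ hθ hθ1 (by push_cast; linarith)
    (by push_cast; linarith) g3, h3⟩
  filter_upwards [eventually_ge_atTop 10] with n hn q a hqa hq
  refine ⟨⟨hqa, ?_⟩, ?_⟩
  · intro p hp hd
    have hl := Pool.Agent.Y175.PW.quad_large 1 3 1 one_pos n (by simp; omega)
    have hval : (1 : ℤ) * (n : ℤ) ^ 2 + 3 * n + 1 = ((n ^ 2 + 3 * n + 1 : ℕ) : ℤ) := by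
      push_cast; ring
    rw [hval] at hl
    exact Pool.Agent.Y175.PW.rough_of_prime s n _ hs (by omega)
      (by rw [Int.natAbs_natCast]; exact hq) hl p hp (by exact_mod_cast hd)
  · rw [Nat.primeFactorsList_prime hq]
    exact hr

end Pool.Agent.Results.MP_d57abb_nt.NarrowProgressions
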