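import Pool.Agent.TH977.PW.Inst

set_option autoImplicit false

/-!
# Regular neighbourhoods of the numbers `k` with `k ^ 2 + 3 k + 1` prime

Let `R r` be the set of the `k` for which all prime factors of `k ^ 2 + 3 k + 1` are larger than
`k ^ (1 / r)`; it contains the set `S` of the problem (`k ^ 2 + 3 k + 1` prime). For an ARBITRARY
subset `A` of `R r`, in every short interval all but a small proportion of the expected number of
elements of `A` are regular points of `A`: around them `A` has the expected order of magnitude in all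
windows, and a constant density at all but boundedly many dyadic scales.
-/

namespace Pool.Agent.Results.MP_d57abb_nt.RegularNeighbourhoods

open Finset Filter
open Pool.Agent.TH977.PW (N Irregular)

/-- All prime factors of `k ^ 2 + 3 k + 1` are larger than `k ^ (1 / r)`. -/
def R (r : ℕ) : Set ℕ :=
  {k | ∀ p : ℕ, p.Prime → p ∣ k ^ 2 + 3 * k + 1 → (k : ℝ) ^ (1 / (r : ℝ)) < (p : ℝ)}

lemma eval_eq (m : ℕ) : (Pool.Agent.TH464.PW.quad 1 3 1).eval (m : ℤ) =
    ((m ^ 2 + 3 * m + 1 : ℕ) : ℤ) := by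
  rw [Pool.Agent.TH464.PW.quad_eval]
  push_cast
  ring

lemma sys : Pool.Agent.W123.RU.Poly.Sys (fun _ : Fin 1 => Pool.Agent.TH464.PW.quad 1 3 1) where
  irr := fun _ => by
    apply Pool.Agent.TH464.PW.quad_irr 1 3 1 (by norm_num)
    · intro p hp h
      have : p ∣ 1 := by exact_mod_cast h.1
      exact hp.one_lt.ne' (Nat.dvd_one.1 this)
    · rintro ⟨s, hs⟩
      have h1 : s * s = 5 := by rw [← hs]; norm_num
      have h2 : -3 < s := by nlinarith
      have h3 : s < 3 := by nlinarith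
      interval_cases s <;> omega
  deg := fun _ => by rw [Pool.Agent.TH464.PW.quad_deg _ _ _ (by norm_num)]; norm_num
  lead := fun _ => by rw [Pool.Agent.TH464.PW.quad_lead _ _ _ (by norm_num)]; norm_num
  inj := Function.injective_of_subsingleton _
  adm := fun p hp => by
    refine ⟨0, fun _ => ?_⟩
    rw [eval_eq]
    intro h
    have : p ∣ 1 := by exact_mod_cast h
    exact hp.one_lt.ne' (Nat.dvd_one.1 this)

/-- **Regular neighbourhoods of the numbers `k` with `k ^ 2 + 3 k + 1` prime.** -/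
theorem result (θ : ℝ) (hθ : 0 < θ) (hθ1 : θ ≤ 1) :
    ∃ r₀ : ℕ, 2 ≤ r₀ ∧ ∀ r : ℕ, r₀ ≤ r →
      (∀ k : ℕ, (k ^ 2 + 3 * k + 1).Prime → k ∈ R r) ∧
      (∃ κ : ℝ, 0 < κ ∧ ∀ᶠ X : ℕ in atTop, ∀ Y : ℕ, (X : ℝ) ^ θ ≤ Y → Y ≤ X →
          κ * Y / Real.log X ≤
            N {k | k ∈ R r ∧ (k ^ 2 + 3 * k + 1).primeFactorsList.length ≤ r} X (X + Y)) ∧
      ∀ ε : ℝ, 0 < ε → ∃ c : ℝ, 0 < c ∧ ∀ δ : ℝ, 0 < δ → ∃ B : ℕ,
        ∀ᶠ X : ℕ in atTop, ∀ Y : ℕ, (X : ℝ) ^ θ ≤ Y → 2 * Y ≤ X → ∀ A : Set ℕ, A ⊆ R r →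
          (N (Irregular A 1 c δ B X Y) X (X + Y) : ℝ) ≤ ε * Y / Real.log X := by
  obtain ⟨r0, hr0, h0⟩ := Pool.Agent.TH977.PW.final
    (fun _ : Fin 1 => Pool.Agent.TH464.PW.quad 1 3 1) sys R
    (fun r => {k | k ∈ R r ∧ (k ^ 2 + 3 * k + 1).primeFactorsList.length ≤ r}) 1
    (by simp)
    (fun r m _ hm i p hp hd => hm p hp (by rw [eval_eq] at hd; exact_mod_cast hd))
    (fun r m _ h1 h2 => ⟨fun p hp hd => h1 0 p hp (by rw [eval_eq]; exact_mod_cast hd), by
      have := h2 0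
      rw [eval_eq, Int.natAbs_natCast] at this
      exact this⟩) θ hθ hθ1
  refine ⟨r0, hr0, fun r hr => ⟨?_, ?_, ?_⟩⟩
  · intro k hk p hp hd
    have h2r : 2 ≤ r := hr0.trans hr
    rw [(Nat.prime_dvd_prime_iff_eq hp hk).1 hd]
    rcases Nat.lt_or_ge k 2 with h2 | h2
    · have h5 : (1 : ℝ) < ((k ^ 2 + 3 * k + 1 : ℕ) : ℝ) := by exact_mod_cast hk.one_lt
      have h6 : (k : ℝ) ^ (1 / (r : ℝ)) ≤ 1 := by
        apply Real.rpow_le_one (Nat.cast_nonneg k) (by exact_mod_cast (by omega : k ≤ 1))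
        positivity
      linarith
    · apply Pool.Agent.TH977.PW.rpow_lt_of_le r k _ h2r h2
      nlinarith
  · have := (h0 r hr).1
    simpa only [pow_one] using this
  · have := (h0 r hr).2
    simpa only [pow_one] using this

end Pool.Agent.Results.MP_d57abb_nt.RegularNeighbourhoods
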